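import Mathlib

/-! Stability of the pencil `s S + t W + z O` with `z^2 = X + c s t`
(S, W positive definite, O skew, X, c >= 0). -/

namespace Pool.Agent.Helper25.EP

open Matrix Complex Polynomial

variable {n : Type*} [Fintype n] [DecidableEq n]

/-- complexification of a real matrix -/
abbrev cx (A : Matrix n n ℝ) : Matrix n n ℂ := A.map (fun x => (x : ℂ))

omit [DecidableEq n] in
theorem quad (A : Matrix n n ℝ) (v : n → ℂ) :
    star v ⬝ᵥ (cx A *ᵥ v) =
      (((fun i => (v i).re) ⬝ᵥ (A *ᵥ fun i => (v i).re)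
        + (fun i => (v i).im) ⬝ᵥ (A *ᵥ fun i => (v i).im) : ℝ) : ℂ)
      + (((fun i => (v i).re) ⬝ᵥ (A *ᵥ fun i => (v i).im)
        - (fun i => (v i).im) ⬝ᵥ (A *ᵥ fun i => (v i).re) : ℝ) : ℂ) * I := by
  simp only [dotProduct, mulVec, Finset.mul_sum, Pi.star_apply, Matrix.map_apply]
  push_cast
  simp only [← Finset.sum_add_distrib, ← Finset.sum_sub_distrib, Finset.sum_mul]
  refine Finset.sum_congr rfl fun i _ => Finset.sum_congr rfl fun j _ => ?_
  apply Complex.ext <;> simp <;> ring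

omit [DecidableEq n] in
theorem quad_pos {S : Matrix n n ℝ} (hS : S.PosDef) {v : n → ℂ} (hv : v ≠ 0) :
    ∃ a : ℝ, 0 < a ∧ star v ⬝ᵥ (cx S *ᵥ v) = (a : ℂ) := by
  have hsym : Sᵀ = S := by
    have := hS.isHermitian
    rwa [Matrix.IsHermitian, conjTranspose_eq_transpose_of_trivial] at this
  refine ⟨(fun i => (v i).re) ⬝ᵥ (S *ᵥ fun i => (v i).re)
        + (fun i => (v i).im) ⬝ᵥ (S *ᵥ fun i => (v i).im), ?_, ?_⟩
  rotate_left
  · rw [quad]
    have : (fun i => (v i).re) ⬝ᵥ (S *ᵥ fun i => (v i).im)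
        - (fun i => (v i).im) ⬝ᵥ (S *ᵥ fun i => (v i).re) = 0 := by
      rw [sub_eq_zero, dotProduct_mulVec, ← mulVec_transpose, hsym, dotProduct_comm]
    rw [this]
    simp only [ofReal_zero, zero_mul, add_zero]
  · have h1 : ∀ x : n → ℝ, 0 ≤ x ⬝ᵥ (S *ᵥ x) := by
      intro x
      have := hS.posSemidef.dotProduct_mulVec_nonneg x
      simpa using this
    have h2 : ∀ x : n → ℝ, x ≠ 0 → 0 < x ⬝ᵥ (S *ᵥ x) := by
      intro x hx
      have := hS.dotProduct_mulVec_pos hx
      simpa using this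
    by_cases hr : (fun i => (v i).re) = 0
    · have hi : (fun i => (v i).im) ≠ 0 := by
        intro hi
        apply hv
        funext i
        apply Complex.ext
        · simpa using congrFun hr i
        · simpa using congrFun hi i
      have := h2 _ hi
      have := h1 (fun i => (v i).re)
      linarith
    · have := h2 _ hr
      have := h1 (fun i => (v i).im)
      linarith

omit [DecidableEq n] in
theorem quad_skew {O : Matrix n n ℝ} (hO : Oᵀ = -O) (v : n → ℂ) :
    ∃ w : ℝ, star v ⬝ᵥ (cx O *ᵥ v) = (w : ℂ) * I := by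
  have h0 : ∀ x : n → ℝ, x ⬝ᵥ (O *ᵥ x) = 0 := by
    intro x
    have : x ⬝ᵥ (O *ᵥ x) = - (x ⬝ᵥ (O *ᵥ x)) := by
      conv_lhs => rw [dotProduct_mulVec, ← mulVec_transpose, hO, dotProduct_comm]
      rw [neg_mulVec, dotProduct_neg]
    linarith
  refine ⟨(fun i => (v i).re) ⬝ᵥ (O *ᵥ fun i => (v i).im)
        - (fun i => (v i).im) ⬝ᵥ (O *ᵥ fun i => (v i).re), ?_⟩
  rw [quad, h0, h0]
  simp only [add_zero, ofReal_zero, zero_add]

/-- two numbers in the closed right half plane, one of them not zero..., whose product is `≤ 0`. -/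
theorem prod_ne {p q : ℂ} (hp : 0 < p.re) (hq : 0 < q.re) {r : ℝ} (hr : 0 ≤ r) :
    p * q + r ≠ 0 := by
  intro h
  have h1 : p * q = -(r : ℂ) := by linear_combination h
  have hre : p.re * q.re - p.im * q.im = -r := by
    have := congrArg Complex.re h1
    simpa using this
  have him : p.re * q.im + p.im * q.re = 0 := by
    have := congrArg Complex.im h1
    simpa using this
  -- q.im = - p.im q.re / p.re
  have h3 : p.re * (p.re * q.re - p.im * q.im) = p.re * p.re * q.re + p.im * p.im * q.re := by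
    linear_combination (-p.im) * him
  have h4 : 0 < p.re * p.re * q.re := by positivity
  have h5 : 0 ≤ p.im * p.im * q.re := mul_nonneg (mul_self_nonneg _) hq.le
  have h6 : p.re * (-r) ≤ 0 := by nlinarith
  rw [hre] at h3
  linarith

/-- the quadratic form `a^2 s^2 + (2ab+e) s t + b^2 t^2 + r` has no zero in the half planes. -/
theorem form_ne {a b e r : ℝ} (ha : 0 < a) (hb : 0 < b) (he : 0 ≤ e) (hr : 0 ≤ r)
    {s t : ℂ} (hs : 0 < s.re) (ht : 0 ≤ t.re) :
    (a : ℂ) ^ 2 * s ^ 2 + (2 * a * b + e) * (s * t) + (b : ℂ) ^ 2 * t ^ 2 + r ≠ 0 := by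
  -- l + 1/l = 2 + e/(ab)
  set μ : ℝ := 1 + e / (2 * a * b) with hμ
  have hμ1 : 1 ≤ μ := by
    rw [hμ]; have : 0 ≤ e / (2 * a * b) := by positivity
    linarith
  set l : ℝ := μ + Real.sqrt (μ ^ 2 - 1) with hl
  have hsq : Real.sqrt (μ ^ 2 - 1) ^ 2 = μ ^ 2 - 1 := Real.sq_sqrt (by nlinarith)
  have hl0 : 0 < l := by
    have := Real.sqrt_nonneg (μ ^ 2 - 1)
    linarith
  have hl2 : l ^ 2 + 1 = 2 * μ * l := by
    rw [hl]; linear_combination hsq
  have hlne : l ≠ 0 := hl0.ne'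
  have hinv : l + l⁻¹ = 2 * μ := by
    field_simp
    linarith
  obtain ⟨k, hk0, hkl, hk⟩ : ∃ k : ℝ, 0 ≤ k ∧ l * k = 1 ∧ l + k = 2 * μ :=
    ⟨l⁻¹, by positivity, mul_inv_cancel₀ hlne, hinv⟩
  -- factors  (a s + b l^{-1} t) (a s + b l t)
  have hfac : (a : ℂ) ^ 2 * s ^ 2 + (2 * a * b + e) * (s * t) + (b : ℂ) ^ 2 * t ^ 2
      = (a * s + b * k * t) * (a * s + b * l * t) := by
    have h1 : (l : ℂ) * (k : ℂ) = 1 := by exact_mod_cast hkl
    have h2 : (l : ℂ) + (k : ℂ) = 2 * (μ : ℂ) := by exact_mod_cast hk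
    have h3 : (2 * a * b + e : ℂ) = a * b * (2 * (μ : ℂ)) := by
      have : 2 * a * b + e = a * b * (2 * μ) := by
        rw [hμ]; field_simp
      exact_mod_cast this
    rw [h3, ← h2]
    linear_combination (-(b : ℂ) ^ 2 * t ^ 2) * h1
  rw [hfac]
  apply prod_ne _ _ hr
  · have : (a * s + b * (k : ℂ) * t).re = a * s.re + b * k * t.re := by
      rw [← ofReal_mul, add_re, re_ofReal_mul, re_ofReal_mul]
    rw [this]
    have h1 : 0 < a * s.re := mul_pos ha hs
    have h2 : 0 ≤ b * k * t.re := by positivity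
    linarith
  · have : (a * s + b * (l : ℂ) * t).re = a * s.re + b * l * t.re := by
      rw [← ofReal_mul, add_re, re_ofReal_mul, re_ofReal_mul]
    rw [this]
    have h1 : 0 < a * s.re := mul_pos ha hs
    have h2 : 0 ≤ b * l * t.re := by positivity
    linarith

theorem det_ne {S W O : Matrix n n ℝ} (hS : S.PosDef) (hW : W.PosDef) (hO : Oᵀ = -O)
    {X c : ℝ} (hX : 0 ≤ X) (hc : 0 ≤ c) {s t z : ℂ} (hz : z ^ 2 = X + c * (s * t))
    (hs : 0 < s.re) (ht : 0 ≤ t.re) :
    (s • cx S + t • cx W + z • cx O).det ≠ 0 := by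
  intro hdet
  obtain ⟨v, hv, hv0⟩ := Matrix.exists_mulVec_eq_zero_iff.mpr hdet
  obtain ⟨a, ha, hSa⟩ := quad_pos hS hv
  obtain ⟨b, hb, hWb⟩ := quad_pos hW hv
  obtain ⟨w, hOw⟩ := quad_skew hO v
  have h1 : s * a + t * b + z * (w * I) = 0 := by
    have := congrArg (fun u => star v ⬝ᵥ u) hv0
    simp only [add_mulVec, smul_mulVec, dotProduct_add, dotProduct_smul, dotProduct_zero,
      hSa, hWb, hOw, smul_eq_mul] at this
    exact this
  have h2 : (a : ℂ) ^ 2 * s ^ 2 + (2 * a * b + ((c * w ^ 2 : ℝ) : ℂ)) * (s * t)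
      + (b : ℂ) ^ 2 * t ^ 2 + ((X * w ^ 2 : ℝ) : ℂ) = 0 := by
    have h3 : (s * a + t * b) ^ 2 = (z * (w * I)) ^ 2 := by
      have : s * a + t * b = - (z * (w * I)) := by linear_combination h1
      rw [this]; ring
    have h4 : (z * (w * I)) ^ 2 = - (z ^ 2 * w ^ 2) := by
      have : I ^ 2 = (-1 : ℂ) := I_sq
      linear_combination (z ^ 2 * w ^ 2) * this
    rw [h4, hz] at h3
    push_cast
    linear_combination h3
  exact form_ne ha hb (by positivity) (by positivity) hs ht h2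

end Pool.Agent.Helper25.EP
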