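import Mathlib

/-! Consecutive coefficients of a polynomial with all roots in `Re < 0`. -/

namespace Pool.Agent.Helper25.EP

open Complex Polynomial

theorem deriv_ne {g : ℂ[X]} (h : ∀ t : ℂ, 0 ≤ t.re → g.eval t ≠ 0) (hd : 0 < g.natDegree) :
    ∀ t : ℂ, 0 ≤ t.re → (derivative g).eval t ≠ 0 := by
  intro t ht h0
  have hg0 : g ≠ 0 := by
    rintro rfl
    simp at hd
  have hd' : derivative g ≠ 0 := by
    intro h1
    have := derivative_eq_zero.mp h1
    omega
  have hmem : t ∈ g.derivative.rootSet ℂ := by
    rw [mem_rootSet]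
    exact ⟨hd', by simpa using h0⟩
  have hsub := rootSet_derivative_subset_convexHull_rootSet
    (P := g) (natDegree_pos_iff_degree_pos.mp hd)
  have h2 : convexHull ℝ (g.rootSet ℂ) ⊆ {z : ℂ | z.re < 0} := by
    apply convexHull_min
    · intro z hz
      rw [mem_rootSet] at hz
      by_contra hc
      have hc : 0 ≤ z.re := not_lt.mp hc
      exact h z hc (by simpa using hz.2)
    · exact convex_halfSpace_re_lt 0
  have h3 : t.re < 0 := h2 (hsub hmem)
  linarith

theorem iter_ne {f : ℂ[X]} (h : ∀ t : ℂ, 0 ≤ t.re → f.eval t ≠ 0) :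
    ∀ k : ℕ, k ≤ f.natDegree → ∀ t : ℂ, 0 ≤ t.re → (derivative^[k] f).eval t ≠ 0 := by
  intro k
  induction k with
  | zero => intro _; simpa using h
  | succ k ih =>
    intro hk
    rw [Function.iterate_succ_apply']
    apply deriv_ne (ih (by omega))
    have : ∀ k : ℕ, (derivative^[k] f).natDegree = f.natDegree - k := by
      intro k
      induction k with
      | zero => simp
      | succ k ih => rw [Function.iterate_succ_apply', natDegree_derivative, ih]; omega
    have := this k
    omega

theorem re_sum_nonneg (s : Multiset ℂ) (h : ∀ z ∈ s, 0 ≤ z.re) : 0 ≤ s.sum.re := by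
  induction s using Multiset.induction_on with
  | empty => simp
  | cons a s ih =>
    rw [Multiset.sum_cons, add_re]
    have h1 := h a (Multiset.mem_cons_self a s)
    have h2 := ih fun z hz => h z (Multiset.mem_cons_of_mem hz)
    linarith

theorem coeff_add_ne {f : ℂ[X]} (h : ∀ t : ℂ, 0 ≤ t.re → f.eval t ≠ 0) {k : ℕ}
    (hk : k ≤ f.natDegree) {x : ℝ} (hx : 0 ≤ x) : f.coeff k + x * f.coeff (k + 1) ≠ 0 := by
  set g := derivative^[k] f with hg
  have hgne := iter_ne h k hk
  rw [← hg] at hgne
  have h0 : g.eval 0 ≠ 0 := hgne 0 (by simp)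
  have e0 : g.eval 0 = (k.factorial : ℂ) * f.coeff k := by
    rw [← coeff_zero_eq_eval_zero, hg, coeff_iterate_derivative]
    simp [Nat.descFactorial_self, nsmul_eq_mul]
  have e1 : (derivative g).eval 0 = ((k + 1).factorial : ℂ) * f.coeff (k + 1) := by
    rw [← coeff_zero_eq_eval_zero, hg, ← Function.iterate_succ_apply' (f := derivative),
      coeff_iterate_derivative]
    have h1 : (k + 1).descFactorial k = (k + 1).factorial := by
      have := Nat.factorial_mul_descFactorial (n := k + 1) (k := k) (by omega)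
      simpa using this
    simp [nsmul_eq_mul, h1]
  have hfk : f.coeff k ≠ 0 := by
    intro h1
    rw [e0, h1, mul_zero] at h0
    exact h0 rfl
  have hquot := (IsAlgClosed.splits g).eval_derivative_div_eval_of_ne_zero h0
  have hre : 0 ≤ ((derivative g).eval 0 / g.eval 0).re := by
    rw [hquot]
    apply re_sum_nonneg
    intro z hz
    rw [Multiset.mem_map] at hz
    obtain ⟨r, hr, rfl⟩ := hz
    have hr0 : g.eval r = 0 := by
      have := (mem_roots'.mp hr).2
      exact this
    have hrre : r.re < 0 := by
      by_contra hc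
      exact hgne r (not_lt.mp hc) hr0
    rw [zero_sub, one_div, inv_re, neg_re]
    apply div_nonneg
    · linarith
    · exact normSq_nonneg _
  have hk1 : ((k + 1).factorial : ℂ) = ((k : ℝ) + 1 : ℝ) * (k.factorial : ℂ) := by
    rw [Nat.factorial_succ]; push_cast; ring
  have hkf : (k.factorial : ℂ) ≠ 0 := by exact_mod_cast k.factorial_ne_zero
  have hre2 : 0 ≤ (f.coeff (k + 1) / f.coeff k).re := by
    have : (derivative g).eval 0 / g.eval 0
        = (((k : ℝ) + 1 : ℝ) : ℂ) * (f.coeff (k + 1) / f.coeff k) := by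
      rw [e0, e1, hk1]
      field_simp
    rw [this, re_ofReal_mul] at hre
    have hkpos : (0 : ℝ) < (k : ℝ) + 1 := by positivity
    exact nonneg_of_mul_nonneg_right hre hkpos
  intro hz
  have h3 : (x : ℂ) * (f.coeff (k + 1) / f.coeff k) = -1 := by
    field_simp
    linear_combination hz
  have h4 := congrArg Complex.re h3
  rw [re_ofReal_mul] at h4
  simp at h4
  nlinarith [mul_nonneg hx hre2]

end Pool.Agent.Helper25.EP
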